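import Pool.Agent.W221.NS.Stm4
import Pool.Agent.W22.ME.TD

/-!
MH-SUPT (helper412): the operator `TT` applied to a force with bounded derivatives.
-/

set_option autoImplicit false

open MeasureTheory Set Metric
open scoped ContDiff ENNReal Topology

namespace Pool.Agent.W412.MH.SUPT

open H459R3.NS W221.NS Pool.Agent.W22.ME.TD

/-- integral of the square of a function supported in the ball of radius four -/
lemma sq_le {a : V → ℝ} (ha : T4 a) {B : ℝ} (hB : ∀ z ∈ ball (0 : V) 4, |a z| ≤ B) :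
    ∫ y, a y ^ 2 ≤ 512 * B ^ 2 := by
  have h1 : ∫ y, a y ^ 2 = ∫ y in ball (0 : V) 4, a y ^ 2 := by
    rw [setIntegral_eq_integral_of_forall_compl_eq_zero]
    intro y hy
    rw [ha.2 y hy]
    norm_num
  have h2 : ∫ _y in ball (0 : V) 4, (B ^ 2 : ℝ) = 512 * B ^ 2 := by
    rw [setIntegral_const, smul_eq_mul, Measure.real, Real.volume_pi_ball (0 : V) (by norm_num),
      ENNReal.toReal_ofReal (by positivity)]
    norm_num
  rw [h1, ← h2]
  refine setIntegral_mono_on (intOn (ha.1.continuous.pow 2) _ _) (intOn continuous_const _ _)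
    measurableSet_ball fun y hy => ?_
  rw [← sq_abs (a y)]
  exact pow_le_pow_left₀ (abs_nonneg _) (hB y hy) 2

/-- derivatives of a product -/
lemma pd_mul' {f g : V → ℝ} (hf : ContDiff ℝ ∞ f) (hg : ContDiff ℝ ∞ g) (i : Fin 3) :
    pd i (fun x => f x * g x) = fun x => f x * pd i g x + g x * pd i f x := by
  funext x
  exact pd_mul hf hg i x

lemma pd_add' {f g : V → ℝ} (hf : ContDiff ℝ ∞ f) (hg : ContDiff ℝ ∞ g) (i : Fin 3) :
    pd i (fun x => f x + g x) = fun x => pd i f x + pd i g x := by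
  funext x
  unfold pd
  rw [fderiv_fun_add (hf.differentiable (by simp) x) (hg.differentiable (by simp) x)]
  rfl

lemma ab_mul {a b A B : ℝ} (ha : |a| ≤ A) (hb : |b| ≤ B) : |a * b| ≤ A * B := by
  rw [abs_mul]
  exact mul_le_mul ha hb (abs_nonneg _) ((abs_nonneg _).trans ha)

/-- bounds for the bump -/
lemma chi_bd : ∃ M : ℝ, 0 ≤ M ∧ (∀ z, |chi z| ≤ M) ∧ (∀ i z, |pd i chi z| ≤ M) ∧
    ∀ i j z, |pd i (pd j chi) z| ≤ M := by
  obtain ⟨M0, h0, hM0⟩ := T4_bdd T4_chi
  choose M1 h1 hM1 using fun i => T4_bdd (T4_pd T4_chi i)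
  choose M2 h2 hM2 using fun i j => T4_bdd (T4_pd (T4_pd T4_chi j) i)
  refine ⟨M0 + ∑ i, M1 i + ∑ i, ∑ j, M2 i j, ?_, fun z => ?_, fun i z => ?_, fun i j z => ?_⟩
  · have a1 : 0 ≤ ∑ i, M1 i := Finset.sum_nonneg fun i _ => h1 i
    have a2 : 0 ≤ ∑ i, ∑ j, M2 i j := Finset.sum_nonneg fun i _ => Finset.sum_nonneg fun j _ => h2 i j
    linarith
  · have a1 : 0 ≤ ∑ i, M1 i := Finset.sum_nonneg fun i _ => h1 i
    have a2 : 0 ≤ ∑ i, ∑ j, M2 i j := Finset.sum_nonneg fun i _ => Finset.sum_nonneg fun j _ => h2 i j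
    linarith [hM0 z]
  · have a1 : M1 i ≤ ∑ i, M1 i :=
      Finset.single_le_sum (f := M1) (fun i _ => h1 i) (Finset.mem_univ i)
    have a2 : 0 ≤ ∑ i, ∑ j, M2 i j := Finset.sum_nonneg fun i _ => Finset.sum_nonneg fun j _ => h2 i j
    linarith [hM1 i z]
  · have a1 : 0 ≤ ∑ i, M1 i := Finset.sum_nonneg fun i _ => h1 i
    have a2 : M2 i j ≤ ∑ j, M2 i j :=
      Finset.single_le_sum (f := M2 i) (fun j _ => h2 i j) (Finset.mem_univ j)
    have a3 : ∑ j, M2 i j ≤ ∑ i, ∑ j, M2 i j :=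
      Finset.single_le_sum (f := fun i => ∑ j, M2 i j)
        (fun i _ => Finset.sum_nonneg fun j _ => h2 i j) (Finset.mem_univ i)
    linarith [hM2 i j z]

theorem t_SUPT (h : S_SUP) : S_SUPT := by
  obtain ⟨Cs, hCs, hS⟩ := h
  obtain ⟨M, hM, hc0, hc1, hc2⟩ := chi_bd
  intro g C hg
  set K : ℝ := |C| * (512 * (8 * M) ^ 2) + 1 with hK
  have hK0 : 0 ≤ |C| * (512 * (8 * M) ^ 2) := by positivity
  have hK1 : 1 ≤ K := by rw [hK]; linarith
  refine ⟨3 * (Cs * K), by positivity, fun F f hF hf hB x hx i => ?_⟩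
  -- the key bound
  have key : ∀ j, |pd j (KK g (fun y => chi y *
      (pd i (fun w => f w j) y - pd j (fun w => f w i) y))) x| ≤ Cs * (K * F) := by
    intro j
    set c : V → ℝ := fun y => pd i (fun w => f w j) y - pd j (fun w => f w i) y with hc
    have hcs : ContDiff ℝ ∞ c := curl_smooth hf i j
    have sub8 : ball (0 : V) 4 ⊆ ball 0 8 := ball_subset_ball (by norm_num)
    have c0 : ∀ y ∈ ball (0 : V) 4, |c y| ≤ 2 * F := by
      intro y hy
      have e1 := (hB y (sub8 hy) j).2.1 i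
      have e2 := (hB y (sub8 hy) i).2.1 j
      rw [hc]
      refine (abs_sub _ _).trans ?_
      linarith
    have c1e : ∀ k, pd k c = fun y => pd k (pd i (fun w => f w j)) y -
        pd k (pd j (fun w => f w i)) y := fun k =>
      pd_sub (pd_smooth (comp_smooth hf j) i) (pd_smooth (comp_smooth hf i) j) k
    have c1 : ∀ k, ∀ y ∈ ball (0 : V) 4, |pd k c y| ≤ 2 * F := by
      intro k y hy
      have e1 := (hB y (sub8 hy) j).2.2.1 k i
      have e2 := (hB y (sub8 hy) i).2.2.1 k j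
      rw [c1e k]
      refine (abs_sub _ _).trans ?_
      linarith
    have c2 : ∀ l k, ∀ y ∈ ball (0 : V) 4, |pd l (pd k c) y| ≤ 2 * F := by
      intro l k y hy
      have e1 := (hB y (sub8 hy) j).2.2.2 l k i
      have e2 := (hB y (sub8 hy) i).2.2.2 l k j
      rw [c1e k, pd_sub (pd_smooth (pd_smooth (comp_smooth hf j) i) k)
        (pd_smooth (pd_smooth (comp_smooth hf i) j) k) l]
      refine (abs_sub _ _).trans ?_
      linarith
    set φ : V → ℝ := fun y => chi y * c y with hφ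
    have hT : T4 φ := T4_mul T4_chi hcs
    have p0 : ∀ y ∈ ball (0 : V) 4, |φ y| ≤ 8 * M * F := by
      intro y hy
      have := ab_mul (hc0 y) (c0 y hy)
      refine this.trans ?_
      nlinarith [mul_nonneg hM hF]
    have p1e : ∀ k, pd k φ = fun y => chi y * pd k c y + c y * pd k chi y := fun k =>
      pd_mul' T4_chi.1 hcs k
    have p1 : ∀ k, ∀ y ∈ ball (0 : V) 4, |pd k φ y| ≤ 8 * M * F := by
      intro k y hy
      rw [p1e k]
      refine (abs_add_le _ _).trans ?_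
      have e1 := ab_mul (hc0 y) (c1 k y hy)
      have e2 := ab_mul (c0 y hy) (hc1 k y)
      nlinarith [mul_nonneg hM hF]
    have p2 : ∀ l k, ∀ y ∈ ball (0 : V) 4, |pd l (pd k φ) y| ≤ 8 * M * F := by
      intro l k y hy
      rw [p1e k, pd_add' (T4_chi.1.mul (pd_smooth hcs k)) (hcs.mul (pd_smooth T4_chi.1 k)) l,
        pd_mul' T4_chi.1 (pd_smooth hcs k) l, pd_mul' hcs (pd_smooth T4_chi.1 k) l]
      refine (abs_add_le _ _).trans ?_
      refine (add_le_add (abs_add_le _ _) (abs_add_le _ _)).trans ?_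
      have e1 := ab_mul (hc0 y) (c2 l k y hy)
      have e2 := ab_mul (c1 k y hy) (hc1 l y)
      have e3 := ab_mul (c0 y hy) (hc2 l k y)
      have e4 := ab_mul (hc1 k y) (c1 l y hy)
      nlinarith [mul_nonneg hM hF]
    have fin : ∀ a : V → ℝ, T4 a → (∀ y ∈ ball (0 : V) 4, |a y| ≤ 8 * M * F) →
        C * ∫ y, a y ^ 2 ≤ (K * F) ^ 2 := by
      intro a ha hb
      have e1 := sq_le ha hb
      have e0 : 0 ≤ ∫ y, a y ^ 2 := integral_nonneg fun y => sq_nonneg _
      have e2 : C * ∫ y, a y ^ 2 ≤ |C| * (512 * (8 * M * F) ^ 2) :=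
        mul_le_mul (le_abs_self C) e1 e0 (abs_nonneg _)
      refine e2.trans ?_
      have e3 : |C| * (512 * (8 * M * F) ^ 2) = (|C| * (512 * (8 * M) ^ 2)) * F ^ 2 := by ring
      have e4 : |C| * (512 * (8 * M) ^ 2) ≤ K ^ 2 := by
        have e5 : |C| * (512 * (8 * M) ^ 2) ≤ K := by rw [hK]; linarith
        have e6 : K ≤ K ^ 2 := by nlinarith
        exact e5.trans e6
      rw [e3, mul_pow K F]
      exact mul_le_mul_of_nonneg_right e4 (sq_nonneg F)
    have hw : ContDiff ℝ ∞ (pd j (KK g φ)) := pd_smooth (hg.smooth φ hT) j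
    refine hS (pd j (KK g φ)) (K * F) (by positivity) hw ?_ ?_ ?_ ?_ x hx
    · exact (hg.n1 φ hT j).trans (fin φ hT p0)
    · intro k
      exact (hg.n2 φ hT k j).trans (fin φ hT p0)
    · intro k l
      rw [hg.pdK φ hT j]
      exact (hg.n2 _ (T4_pd hT j) k l).trans (fin _ (T4_pd hT j) (p1 j))
    · intro k l m
      rw [hg.pdK φ hT j, hg.pdK _ (T4_pd hT j) m]
      exact (hg.n2 _ (T4_pd (T4_pd hT j) m) k l).trans
        (fin _ (T4_pd (T4_pd hT j) m) (p2 m j))
  show |∑ j, pd j (KK g (fun y => chi y *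
      (pd i (fun w => f w j) y - pd j (fun w => f w i) y))) x| ≤ 3 * (Cs * K) * F
  refine (Finset.abs_sum_le_sum_abs _ _).trans ?_
  refine (Finset.sum_le_sum (fun j (_ : j ∈ Finset.univ) => key j)).trans ?_
  rw [Finset.sum_const, Finset.card_univ, Fintype.card_fin]
  simp only [nsmul_eq_mul]
  push_cast
  apply le_of_eq
  ring

end Pool.Agent.W412.MH.SUPT
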